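import Pool.Agent.H75.GS.Targets

/-!
# GRW: the growth of the bound for the samplers
-/

set_option autoImplicit false

namespace Pool.Agent.H62.GS

open Finset Filter Pool.Agent.H75.GS

/-- GRW -/
theorem pf_GRW : T_GRW := by
  intro g hg a B
  obtain ⟨m0, hm0⟩ := eventually_atTop.1 (hg (a + 1))
  obtain ⟨G, hG⟩ : ∃ G : ℕ, ∀ m < m0, g m ≤ G :=
    ⟨(range m0).sup g, fun m hm => Finset.le_sup (f := g) (mem_range.2 hm)⟩
  obtain ⟨E, hE⟩ : ∃ E : ℕ, E = 16 ^ (a + 1) := ⟨_, rfl⟩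
  refine eventually_atTop.2 ⟨8 * (G + B) + 16 * B + E, fun n hn m hm => ?_⟩
  by_cases h : m < m0
  · have := hG m h
    omega
  · have h1 := hm0 m (by omega)
    by_contra hcon
    have h2 : n ≤ 16 * g m := by omega
    have h3 : n ^ (a + 1) ≤ (16 * g m) ^ (a + 1) := Nat.pow_le_pow_left h2 _
    rw [mul_pow, ← hE] at h3
    have hE0 : 0 < E := by
      rw [hE]
      positivity
    have h4 : E * g m ^ (a + 1) < E * n ^ a :=
      Nat.mul_lt_mul_of_pos_left (lt_of_le_of_lt h1 hm) hE0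
    have h5 : E * n ^ a ≤ n * n ^ a := Nat.mul_le_mul_right _ (by omega)
    have h6 : n * n ^ a = n ^ (a + 1) := by ring
    rw [h6] at h5
    exact absurd (h3.trans_lt (h4.trans_le h5)) (lt_irrefl _)

end Pool.Agent.H62.GS
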