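import Pool.Agent.H75.GS.Targets
import Pool.Agent.H12.OQ.LKG

/-!
# LKX: the values of the oracle of the stage, two acceptance relations
-/

set_option autoImplicit false

namespace Pool.Agent.H62.GS

open Finset Pool.Agent.H6.NB Pool.Agent.H70.OQ Pool.Agent.H75.GS Pool.Agent.H12.OQ.LKG

/-- LKX -/
theorem pf_LKX (h1 : T_BUX) (h2 : T_CLH) (h3 : T_NST) (h4 : Pool.Agent.H6.NB.T_COD) : T_LKX := by
  intro k A A' n a σ₀ O₀ O T κ P hS hAA hn hB₀ hB w hw
  obtain ⟨c1, c2, c3, c4⟩ := h2 k n a O₀
  obtain ⟨d1, d2, d3, d4⟩ := h2 k n a σ₀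
  by_cases e1 : ∃ p : Nn n k, w = false :: nstr n k p
  · obtain ⟨p, rfl⟩ := e1
    rw [c1, Bld_not_key hB (fun s => bas_ne_key _ s)]
    unfold sdg
    rw [d1]
    rfl
  by_cases e2 : ∃ s : Om n a, w = key s.1
  · obtain ⟨s, rfl⟩ := e2
    rw [c2]
    rfl
  by_cases e3 : ∃ (s : Om n a) (i : Fin (ns s.1)) (v : VV (qs s.1)),
      w = Pool.Agent.H6.NB.blk s.1 i v.1 (List.ofFn v.2)
  · obtain ⟨s, i, v, rfl⟩ := e3
    rw [c3, Bld_not_key hB (fun s' => blk_ne_key _ _ _ _ _)]
    unfold sdg
    rw [d3]
    rfl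
  have f1 : clg k n a O₀ w = .cst (O₀ w) := by
    rcases c4 w with h | h | h | h
    · exact absurd h e1
    · exact absurd h e2
    · exact absurd h e3
    · exact h
  have f2 : clg k n a σ₀ w = .cst (σ₀ w) := by
    rcases d4 w with h | h | h | h
    · exact absurd h e1
    · exact absurd h e2
    · exact absurd h e3
    · exact h
  have hsw : sdg k n a σ₀ T κ P w = σ₀ w := by
    unfold sdg
    rw [f2]
    rfl
  rw [f1]
  change O w = O₀ w
  by_cases hk : ∃ s, w = key s
  · obtain ⟨s, rfl⟩ := hk
    rw [Bld_key hB, Bld_key hB₀, hsw]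
    congr 1
    -- the instance is short
    have hlen : (key s).length = s.length + 2 := by
      unfold key
      simp
    have hs1 : s.length < n ^ a := by omega
    have hs2 : s.length < n ^ 2 := by
      by_contra hcon
      push Not at hcon
      exact e2 ⟨⟨s, hcon, hs1⟩, rfl⟩
    have hnn : n ≤ n ^ 2 := by nlinarith
    -- the seeds agree below `n`
    have hagree : ∀ w : List Bool, w.length ≤ n - 1 → σ₀ w = sdg k n a σ₀ T κ P w := by
      intro w' hw'
      rcases d4 w' with ⟨p, rfl⟩ | ⟨s', rfl⟩ | ⟨s', i, v, rfl⟩ | h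
      · exfalso
        rw [List.length_cons, (h3 n k).1] at hw'
        have h6 : 1 ≤ 2 ^ (k + 1) - 1 := by
          have h7 : 2 ^ 1 ≤ 2 ^ (k + 1) := Nat.pow_le_pow_right (by norm_num) (by omega)
          omega
        have h8 : n ≤ (2 ^ (k + 1) - 1) * n := Nat.le_mul_of_pos_left n h6
        omega
      · exfalso
        have := s'.2.1
        unfold key at hw'
        simp at hw'
        omega
      · exfalso
        have := s'.2.1
        have h5 := h4.2 s'.1 (List.ofFn v.2) (2 * i + v.1.toNat)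
        unfold Pool.Agent.H6.NB.blk at hw'
        rw [List.length_cons, List.length_cons, h5] at hw'
        omega
      · unfold sdg
        rw [h]
        rfl
    have hacc : A s O ↔ A s O₀ := by
      apply hS s O O₀
      intro w' hw'
      have hmn : w'.length ≤ n - 1 := by
        by_contra hcon
        push Not at hcon
        have h6 : n ≤ w'.length := by omega
        have : n ^ 2 ≤ w'.length ^ 2 := Nat.pow_le_pow_left h6 2
        omega
      exact (h1 A A' σ₀ _ O₀ O (n - 1) hS
        (fun s O hs => (hAA s O (by omega)).symm) hB₀ hB hagree w' hmn).symm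
    exact decide_eq_decide.2 ((hAA s O hs2).trans hacc)
  · push Not at hk
    rw [Bld_not_key hB hk, Bld_not_key hB₀ hk, hsw]

end Pool.Agent.H62.GS
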