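import Pool.Agent.H75.GS.Targets
import Pool.Agent.H12.OQ.LKG

/-!
# WRF: the frozen part of the worlds
-/

set_option autoImplicit false

namespace Pool.Agent.H62.GS

open Finset Pool.Agent.H6.NB Pool.Agent.H70.OQ Pool.Agent.H75.GS Pool.Agent.H12.OQ.LKG

theorem pst_eq (n : ℕ) (x : Xn n) (y : Ys n 0) :
    pst n x y = false :: nstr n 1 ((x, y) : Nn n 1) := rfl

theorem TT_self (n : ℕ) (p : Wn n) (x : Xn n) (hx : p.2 x = false) :
    TT n p ((x, p.1 x) : Nn n 1) = false := by
  change (p.2 x && decide (p.1 x = p.1 x)) = false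
  rw [hx]
  rfl

theorem UU_self (n : ℕ) (p : Wn n) (x : Xn n) :
    UU n p x ((x, p.1 x) : Nn n 1) = true := by
  change ((p.2 x || decide (x = x)) && decide (p.1 x = p.1 x)) = true
  simp

theorem UU_eq (n : ℕ) (p : Wn n) (x : Xn n) (q : Nn n 1) (hq : q ≠ ((x, p.1 x) : Nn n 1)) :
    UU n p x q = TT n p q := by
  obtain ⟨q1, q2⟩ := q
  change ((p.2 q1 || decide (q1 = x)) && decide (q2 = p.1 q1)) = (p.2 q1 && decide (q2 = p.1 q1))
  by_cases h : q1 = x
  · subst h
    have h2 : ¬ q2 = p.1 q1 := by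
      intro h3
      exact hq (by rw [h3])
    simp [h2]
  · simp [h]

/-- The seeds agree except at one string. -/
theorem sdg_eq (h2 : T_CLH) (n a : ℕ) (σ₀ : List Bool → Bool) (p : Wn n)
    (κ : Om n a → Bool) (P : Blk (fun s : Om n a => ns s.1) fun s => qs s.1) (x : Xn n)
    (w : List Bool) (hw : w ≠ pst n x (p.1 x)) :
    sdg 1 n a σ₀ (UU n p x) κ P w = sdg 1 n a σ₀ (TT n p) κ P w := by
  obtain ⟨d1, d2, d3, d4⟩ := h2 1 n a σ₀
  unfold sdg
  rcases d4 w with ⟨q, rfl⟩ | ⟨s', rfl⟩ | ⟨s', i, v, rfl⟩ | h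
  · rw [d1]
    change UU n p x q = TT n p q
    apply UU_eq
    intro h
    exact hw (by rw [pst_eq, h])
  · rw [d2]
    rfl
  · rw [d3]
    rfl
  · rw [h]
    rfl

/-- WRF -/
theorem pf_WRF (h2 : T_CLH) : T_WRF := by
  intro n a a0 A σ₀ O₀ OT Ox p κ P hW x hx
  obtain ⟨d1, -, -, -⟩ := h2 1 n (2 ^ a) σ₀
  have hU : Ox x (pst n x (p.1 x)) = true := by
    rw [pst_eq, Bld_not_key (hW.bx x) (fun s => bas_ne_key _ s)]
    unfold sdg
    rw [d1]
    exact UU_self n p x
  have hT : OT (pst n x (p.1 x)) = false := by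
    rw [pst_eq, Bld_not_key hW.bT (fun s => bas_ne_key _ s)]
    unfold sdg
    rw [d1]
    exact TT_self n p x hx
  have hsq : ∀ m : ℕ, m ≤ m ^ 2 := fun m => Nat.le_self_pow two_ne_zero m
  have hmsk : ∀ w : List Bool, w ≠ pst n x (p.1 x) →
      msk (pst n x (p.1 x)) (Ox x) w = Ox x w := by
    intro w hw
    unfold msk
    rw [if_neg hw]
  have hkey : ∀ s : List Bool, key s ≠ pst n x (p.1 x) := by
    intro s h
    rw [pst_eq] at h
    exact bas_ne_key _ s h.symm
  have main : ∀ m : ℕ, ∀ w : List Bool, w.length = m → w.length ≤ n ^ 2 ^ a0 →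
      msk (pst n x (p.1 x)) (Ox x) w = OT w := by
    intro m
    induction m using Nat.strong_induction_on with
    | _ m ih =>
      intro w hwm hwH
      by_cases hwu : w = pst n x (p.1 x)
      · rw [hwu, hT]
        unfold msk
        rw [if_pos rfl]
      rw [hmsk w hwu]
      by_cases hk : ∃ s, w = key s
      · obtain ⟨s, rfl⟩ := hk
        have hlen : (key s).length = s.length + 2 := by
          unfold key
          simp
        rw [Bld_key (hW.bx x), Bld_key hW.bT, sdg_eq h2 n (2 ^ a) σ₀ p κ P x _ hwu]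
        congr 1
        have hs : s.length < n ^ 2 ^ a0 := by omega
        have hA : mskA (n ^ 2 ^ a0) (pst n x (p.1 x)) A s (Ox x) ↔ A s OT := by
          unfold mskA
          rw [if_pos hs]
          apply hW.loc
          intro w' hw'
          have h5 := hsq w'.length
          exact ih w'.length (by omega) w' rfl (by omega)
        exact decide_eq_decide.2 hA
      · push Not at hk
        rw [Bld_not_key (hW.bx x) hk, Bld_not_key hW.bT hk, sdg_eq h2 n (2 ^ a) σ₀ p κ P x _ hwu]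
  have hA : ∀ s : List Bool, s.length < n ^ 2 ^ a0 →
      (A s (msk (pst n x (p.1 x)) (Ox x)) ↔ A s OT) := by
    intro s hs
    apply hW.loc
    intro w' hw'
    have h5 := hsq w'.length
    exact main w'.length w' rfl (by omega)
  refine ⟨hU, fun w hw => main w.length w rfl hw, ?_, hA⟩
  intro s hs
  rw [Bld_key (hW.bx x), Bld_key hW.bT, sdg_eq h2 n (2 ^ a) σ₀ p κ P x _ (hkey s)]
  congr 1
  have : mskA (n ^ 2 ^ a0) (pst n x (p.1 x)) A s (Ox x) ↔ A s OT := by
    unfold mskA
    rw [if_pos hs]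
    exact hA s hs
  exact decide_eq_decide.2 this

end Pool.Agent.H62.GS
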